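import Pool.Agent.H811R2.T.K

/-! # A focus plus a homogeneous polynomial of even degree: on average a bounded number of limit
cycles around the focus, uniformly in the degree and in all coefficients

The family `z' = (μ + i) z + c₀ z̄ⁿ + c₁ z z̄ⁿ⁻¹ + … + cₙ zⁿ` in the complex plane, `n` even: the number
of closed orbits around the origin has mean at most `K` over `-M ≤ μ ≤ M`, for every `M ≥ 1`, where
`K` is an absolute constant, the same for all even degrees `n` and all coefficients `c₀, …, cₙ`. -/

open Set MeasureTheory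
open scoped ENNReal

namespace Pool.Agent.Results.MP_95e7ec_an.EvenHomogeneousMean

/-- the planar vector field `(μ + i) z + ∑ c j * z ^ j * z̄ ^ (n - j)` (`0 ≤ j ≤ n`): a focus or centre
at the origin plus an arbitrary homogeneous polynomial field of degree `n` -/
noncomputable def field (n : ℕ) (c : ℕ → ℂ) (μ : ℝ) (z : ℂ) : ℂ :=
  ((μ : ℂ) + Complex.I) * z +
    ∑ j ∈ Finset.range (n + 1), c j * (z ^ j * (starRingEnd ℂ) z ^ (n - j))

/-- all closed orbits of `z' = V z` (ranges of periodic solutions) which surround the origin: the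
component of the complement which contains the origin is bounded -/
def closedOrbitsAround (V : ℂ → ℂ) : Set (Set ℂ) :=
  {C | (∃ γ : ℝ → ℂ, ∃ T : ℝ, 0 < T ∧ (∀ t : ℝ, HasDerivAt γ (V (γ t)) t) ∧
      (∀ t : ℝ, γ (t + T) = γ t) ∧ C = Set.range γ) ∧
    (0 : ℂ) ∉ C ∧ Bornology.IsBounded (connectedComponentIn Cᶜ 0)}

/-- **Uniform mean for all even degrees.** There is an absolute constant `K` such that for every even
`n ≥ 2`, all coefficients `c` and all `M ≥ 1` the number of closed orbits around the origin of the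
field `(μ + i) z + ∑ c j * z ^ j * z̄ ^ (n - j)` is at most `g μ` for `-M ≤ μ ≤ M`, where `g` is
measurable with mean at most `K` over `[-M, M]`. -/
theorem result : ∃ K : ℝ, 0 ≤ K ∧ ∀ (n : ℕ) (c : ℕ → ℂ), 2 ≤ n → Even n → ∀ M : ℝ, 1 ≤ M →
    ∃ g : ℝ → ℝ≥0∞, Measurable g ∧
      (∀ μ ∈ Icc (-M) M, ((closedOrbitsAround (field n c μ)).encard : ℝ≥0∞) ≤ g μ) ∧
      ∫⁻ μ in Icc (-M) M, g μ ≤ ENNReal.ofReal (K * (2 * M)) :=
  H811R2.Quad.even_mean

end Pool.Agent.Results.MP_95e7ec_an.EvenHomogeneousMean
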