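import Pool.Agent.TH275.LF.Lien3

/-! # Liénard systems: on average over the linear damping the number of closed orbits is at most
quadratic in the number of nonlinear monomials, whatever the degree

For every real polynomial `p` of degree at most `n` with at most `m` monomials of degree at least two
and every interval `(a, a + 1)`, the mean over `s ∈ (a, a + 1)` of the number of all closed orbits in
the plane of the Liénard system `x' = y - p(x) + s x`, `y' = -x` is at most
`min (320000 n ^ 2) (900000 (m + 1) ^ 2)`. -/

open Set MeasureTheory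
open scoped ENNReal

namespace Pool.Agent.Results.MP_95e7ec_an.LienardMean

/-- The number (in `[0, ∞]`) of all nonconstant closed orbits in the plane, limit cycles or not, of the
Liénard system `x' = y - F(x)`, `y' = -x`, where `F` is a real polynomial. -/
noncomputable def closedOrbits (F : Polynomial ℝ) : ℝ≥0∞ :=
  (({C : Set (ℝ × ℝ) | ∃ γ : ℝ → ℝ × ℝ, ∃ T : ℝ, 0 < T ∧
    (∀ t : ℝ, HasDerivAt γ ((γ t).2 - F.eval (γ t).1, -(γ t).1) t) ∧
    (∀ t : ℝ, γ (t + T) = γ t) ∧ (∃ s t : ℝ, γ s ≠ γ t) ∧ C = range γ}.encard : ℕ∞) : ℝ≥0∞)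

lemma closedOrbits_eq (p : Polynomial ℝ) (s : ℝ) :
    closedOrbits (p - Polynomial.C s * Polynomial.X) = H709L.NL p s := by
  have h : ∀ z : ℝ × ℝ, (z.2 - (p - Polynomial.C s * Polynomial.X).eval z.1, -z.1) =
      H709L.lf p s z := by
    intro z
    unfold H709L.lf
    ext
    · simp only [Polynomial.eval_sub, Polynomial.eval_mul, Polynomial.eval_C, Polynomial.eval_X]
      ring
    · rfl
  unfold closedOrbits H709L.NL H709R2.ClosedOrbit
  simp only [h]

/-- Let `p` be a real polynomial of degree at most `n`, `n ≥ 1`, with at most `m` monomials of degree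
at least two. The number of closed orbits of the Liénard system `x' = y - p(x) + s x`, `y' = -x` is a
Borel function of `s`, and its integral over every interval `(a, a + 1)` is at most
`min (320000 n ^ 2) (900000 (m + 1) ^ 2)`. -/
theorem result (p : Polynomial ℝ) (n m : ℕ) (hn : 1 ≤ n) (hp : p.natDegree ≤ n)
    (hm : (p.support.filter (fun e => 2 ≤ e)).card ≤ m) :
    Measurable (fun s : ℝ => closedOrbits (p - Polynomial.C s * Polynomial.X)) ∧
    ∀ a : ℝ, ∫⁻ s in Ioo a (a + 1), closedOrbits (p - Polynomial.C s * Polynomial.X) ≤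
      ENNReal.ofReal (min (320000 * n ^ 2) (900000 * (m + 1) ^ 2)) := by
  simp only [closedOrbits_eq]
  obtain ⟨h1, h2⟩ := H709L.lienard_mean p n hp hn
  refine ⟨h1, fun a => ?_⟩
  have h3 := TH275.LF.mean_sparse p m hm a
  rw [ENNReal.ofReal_min]
  exact le_min (h2 a) h3

end Pool.Agent.Results.MP_95e7ec_an.LienardMean
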