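import Pool.Agent.W960.HQ.Posq

/-! # For most rotations of an arbitrary polynomial field the number of all closed orbits is at most
polynomial in the degree

For every nonzero polynomial vector field of degree at most `n` and `0 < ε ≤ 1`, for all angles in
`(0, 2 π)` outside a set of measure at most `ε` the field rotated by the angle has at most
`4 * 10 ^ 9 * (n + 1) ^ 8 * (1 + log ((n + 1) / ε)) / ε` closed orbits in the whole plane. -/

open Set MeasureTheory
open scoped ENNReal

namespace Pool.Agent.Results.MP_95e7ec_an.MostRotations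

/-- All closed orbits in the plane (ranges of nonconstant periodic solutions, limit cycles or not)
of the field `(P, Q)` rotated by the angle `α`. -/
def closedOrbits (P Q : MvPolynomial (Fin 2) ℝ) (α : ℝ) : Set (Set (ℝ × ℝ)) :=
  {C | ∃ γ : ℝ → ℝ × ℝ, ∃ T : ℝ, 0 < T ∧
    (∀ t : ℝ, HasDerivAt γ
      (Real.cos α * MvPolynomial.eval ![(γ t).1, (γ t).2] P -
          Real.sin α * MvPolynomial.eval ![(γ t).1, (γ t).2] Q,
        Real.sin α * MvPolynomial.eval ![(γ t).1, (γ t).2] P +
          Real.cos α * MvPolynomial.eval ![(γ t).1, (γ t).2] Q) t) ∧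
    (∀ t : ℝ, γ (t + T) = γ t) ∧ (∃ s t : ℝ, γ s ≠ γ t) ∧ C = Set.range γ}

/-- **A polynomial bound for most rotations.** Let `(P, Q)` be a nonzero polynomial vector field of
degree at most `n` and `0 < ε ≤ 1`. The set of the angles `α` in `(0, 2 π)` at which the field
rotated by `α` has more than `4 * 10 ^ 9 * (n + 1) ^ 8 * (1 + log ((n + 1) / ε)) / ε` closed orbits
in the plane has measure at most `ε`. -/
theorem result (n : ℕ) (P Q : MvPolynomial (Fin 2) ℝ) (hP : P.totalDegree ≤ n)
    (hQ : Q.totalDegree ≤ n) (hne : P ≠ 0 ∨ Q ≠ 0) (ε : ℝ) (hε : 0 < ε) (hε1 : ε ≤ 1) :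
    volume {α : ℝ | α ∈ Ioo 0 (2 * Real.pi) ∧
      ENNReal.ofReal (4 * 10 ^ 9 * (n + 1) ^ 8 * (1 + Real.log ((n + 1) / ε)) / ε) <
        ((closedOrbits P Q α).encard : ℝ≥0∞)} ≤ ENNReal.ofReal ε :=
  W960.HQ.measq_two_pi hP hQ hne hε hε1

end Pool.Agent.Results.MP_95e7ec_an.MostRotations
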