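import Pool.Agent.H709Q.Meas

/-! # Quadratic systems: an absolute bound for the mean number of closed orbits of the rotated fields

For every quadratic vector field in the plane (no assumption) the number of all closed orbits in the
plane of the field rotated by the angle `α` has integral at most `1544 * 10 ^ 6` over `(0, 2 π]`. For
every law on the quadratic fields which is invariant under rotations of the field the expected number
of all closed orbits is at most `246 * 10 ^ 6`. -/

open Set MeasureTheory
open scoped ENNReal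

namespace Pool.Agent.Results.MP_95e7ec_an.QuadraticMean

/-- the quadratic field `c₀ + x c₁ + y c₂ + x² c₃ + x y c₄ + y² c₅` with coefficient vectors `c i` -/
def quadratic (c : Fin 6 → ℝ × ℝ) (z : ℝ × ℝ) : ℝ × ℝ :=
  c 0 + z.1 • c 1 + z.2 • c 2 + z.1 ^ 2 • c 3 + (z.1 * z.2) • c 4 + z.2 ^ 2 • c 5

/-- all closed orbits in the plane (ranges of nonconstant periodic solutions, limit cycles or not) of
the quadratic field with the coefficient vectors `c` -/
def closedOrbits (c : Fin 6 → ℝ × ℝ) : Set (Set (ℝ × ℝ)) :=
  {C | ∃ γ : ℝ → ℝ × ℝ, ∃ T : ℝ, 0 < T ∧ (∀ t : ℝ, HasDerivAt γ (quadratic c (γ t)) t) ∧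
    (∀ t : ℝ, γ (t + T) = γ t) ∧ (∃ s t : ℝ, γ s ≠ γ t) ∧ C = Set.range γ}

/-- the coefficient vectors of the field rotated by the angle `α` -/
noncomputable def rotated (α : ℝ) (c : Fin 6 → ℝ × ℝ) (i : Fin 6) : ℝ × ℝ :=
  (Real.cos α * (c i).1 - Real.sin α * (c i).2, Real.sin α * (c i).1 + Real.cos α * (c i).2)

lemma closedOrbits_eq (c : Fin 6 → ℝ × ℝ) :
    closedOrbits c = {C | H709R2.ClosedOrbit (H709Q.qf c) C} := rfl

lemma rotated_eq (α : ℝ) (c : Fin 6 → ℝ × ℝ) : rotated α c = H709Q.rc α c := by
  funext i
  rfl

/-- **Quadratic systems on average.** For every quadratic vector field with coefficient vectors `c`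
the number of all closed orbits in the plane of the field rotated by `α` is a measurable function of
`α` with integral at most `1544 * 10 ^ 6` over `(0, 2 π]`. For every probability measure on the
coefficients which is invariant under all rotations, the expected number of all closed orbits in the
plane is at most `246 * 10 ^ 6`. -/
theorem result :
    (∀ c : Fin 6 → ℝ × ℝ,
      Measurable (fun α : ℝ => ((closedOrbits (rotated α c)).encard : ℝ≥0∞)) ∧
      ∫⁻ α in Ioc 0 (2 * Real.pi), ((closedOrbits (rotated α c)).encard : ℝ≥0∞) ≤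
        ENNReal.ofReal (1544 * 10 ^ 6)) ∧
    ∀ μ : Measure (Fin 6 → ℝ × ℝ), IsProbabilityMeasure μ → (∀ α : ℝ, μ.map (rotated α) = μ) →
      ∫⁻ c, ((closedOrbits c).encard : ℝ≥0∞) ∂μ ≤ ENNReal.ofReal (246 * 10 ^ 6) := by
  constructor
  · intro c
    have h := H709Q.main_single c
    exact h
  · intro μ hμ hinv
    exact H709Q.main_measure μ hinv

end Pool.Agent.Results.MP_95e7ec_an.QuadraticMean
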